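import Pool.Agent.H608R4.KM.Stm

/-!
Project KM (helper608), piece SY: large order parameter forces synchrony (job 5149, helper644).
-/

set_option autoImplicit false

namespace Pool.Agent.TH644.KM

open Finset Pool.Agent.H608R4.KM

section

variable {n : ℕ} {a : Fin n → Fin n → ℝ} {x y : Fin n → ℝ}

lemma u_sym (i j : Fin n) : u x y i j = u x y j i := by
  unfold u
  ring

lemma v_anti (i j : Fin n) : v x y i j = -v x y j i := by
  unfold v
  ring

lemma uv (h : ∀ i, x i ^ 2 + y i ^ 2 = 1) (i j : Fin n) : u x y i j ^ 2 + v x y i j ^ 2 = 1 := by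
  have e : u x y i j ^ 2 + v x y i j ^ 2 = (x i ^ 2 + y i ^ 2) * (x j ^ 2 + y j ^ 2) := by
    unfold u v
    ring
  rw [e, h i, h j, one_mul]

lemma u_le (h : ∀ i, x i ^ 2 + y i ^ 2 = 1) (i j : Fin n) : u x y i j ≤ 1 := by
  have := uv h i j
  nlinarith [sq_nonneg (v x y i j), sq_nonneg (u x y i j - 1)]

/-- the diagonal of the Hessian -/
lemma K_nonneg (h : Eq n a x y) (i : Fin n) : 0 ≤ ∑ j, a i j * u x y i j := by
  have h1 := h.l2 (fun p => if p = i then 1 else 0)
  have e1 : ∀ p q : Fin n, a p q * u x y p q * ((if p = i then (1 : ℝ) else 0) -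
      (if q = i then 1 else 0)) ^ 2 = (if p = i then a p q * u x y p q else 0) +
      (if q = i then a p q * u x y p q else 0) := by
    intro p q
    by_cases hp : p = i <;> by_cases hq : q = i
    · rw [if_pos hp, if_pos hq, if_pos hp, if_pos hq, hp, hq, h.gr.diag]
      ring
    · rw [if_pos hp, if_neg hq, if_pos hp, if_neg hq]
      ring
    · rw [if_neg hp, if_pos hq, if_neg hp, if_pos hq]
      ring
    · rw [if_neg hp, if_neg hq, if_neg hp, if_neg hq]
      ring
  simp only [e1, Finset.sum_add_distrib] at h1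
  have e2 : ∑ p, ∑ q, (if p = i then a p q * u x y p q else 0) = ∑ j, a i j * u x y i j := by
    rw [Finset.sum_comm]
    refine Finset.sum_congr rfl fun q _ => ?_
    rw [Finset.sum_ite_eq' univ i (fun p => a p q * u x y p q), if_pos (mem_univ i)]
  have e3 : ∑ p, ∑ q, (if q = i then a p q * u x y p q else 0) = ∑ j, a i j * u x y i j := by
    refine Finset.sum_congr rfl fun p _ => ?_
    rw [Finset.sum_ite_eq' univ i (fun q => a p q * u x y p q), if_pos (mem_univ i), h.gr.sym p i,
      u_sym p i]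
  rw [e2, e3] at h1
  linarith

/-- the vector of all `x` is in front of every vertex -/
lemma P_pos (hDB : S_DB) (h : Eq n a x y) (hR : (1 / 4 + dl) ^ 2 * (n : ℝ) ^ 2 < R1 x y)
    (i : Fin n) : 0 < (∑ j, x j) * x i + (∑ j, y j) * y i := by
  obtain ⟨hd, -, hb01, hab, hb0⟩ := hDB n a h.gr
  obtain ⟨c, hc⟩ : ∃ c, c = ∑ j, x j := ⟨_, rfl⟩
  obtain ⟨s, hs⟩ : ∃ s, s = ∑ j, y j := ⟨_, rfl⟩
  have hR1 : R1 x y = c ^ 2 + s ^ 2 := by
    rw [hc, hs]
    rfl
  rw [← hc, ← hs]
  have hsplit : ∀ g : Fin n → ℝ, ∑ j, g j = g i + ∑ j, a i j * g j + ∑ j, b a i j * g j := by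
    intro g
    have e1 : ∀ j, g j = (if j = i then g j else 0) + a i j * g j + b a i j * g j := by
      intro j
      by_cases hj : j = i
      · rw [if_pos hj, hj, h.gr.diag, hb0]
        ring
      · rw [if_neg hj]
        have := hab i j (fun h => hj h.symm)
        have e2 : a i j = 1 - b a i j := by linarith
        rw [e2]
        ring
    calc ∑ j, g j = ∑ j, ((if j = i then g j else 0) + a i j * g j + b a i j * g j) :=
          Finset.sum_congr rfl fun j _ => e1 j
      _ = _ := by
          rw [Finset.sum_add_distrib, Finset.sum_add_distrib, Finset.sum_ite_eq' univ i g,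
            if_pos (mem_univ i)]
  have hU : ∑ j, u x y i j = c * x i + s * y i := by
    unfold u
    rw [Finset.sum_add_distrib, ← Finset.mul_sum, ← Finset.mul_sum, hc, hs]
    ring
  have hV : ∑ j, v x y i j = x i * s - y i * c := by
    unfold v
    rw [Finset.sum_sub_distrib, ← Finset.mul_sum, ← Finset.mul_sum, hc, hs]
  have hK := K_nonneg h i
  have hu1 : u x y i i = 1 := by
    have := h.unit i
    unfold u
    linarith
  have hv0 : v x y i i = 0 := by
    unfold v
    ring
  have h1 := hsplit (u x y i)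
  have h2 := hsplit (v x y i)
  rw [hU, hu1] at h1
  rw [hV, hv0, h.l1 i, zero_add, zero_add] at h2
  obtain ⟨p, hp⟩ : ∃ p, p = ∑ j, b a i j * u x y i j := ⟨_, rfl⟩
  obtain ⟨q, hq⟩ : ∃ q, q = ∑ j, b a i j * v x y i j := ⟨_, rfl⟩
  obtain ⟨B, hB⟩ : ∃ B, B = ∑ j, b a i j := ⟨_, rfl⟩
  obtain ⟨k, hk⟩ : ∃ k, k = ∑ j, a i j * u x y i j := ⟨_, rfl⟩
  have hsq : ∀ j, b a i j ^ 2 = b a i j := fun j => by
    rcases hb01 i j with h | h <;> rw [h] <;> norm_num
  have hCS : ∀ g : Fin n → ℝ, (∑ j, b a i j * g j) ^ 2 ≤ B * ∑ j, b a i j * g j ^ 2 := by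
    intro g
    have h3 := Finset.sum_mul_sq_le_sq_mul_sq univ (fun j => b a i j) (fun j => b a i j * g j)
    have e3 : ∀ j, b a i j * (b a i j * g j) = b a i j * g j := fun j => by
      rw [← mul_assoc, ← pow_two, hsq]
    have e4 : ∀ j, (b a i j * g j) ^ 2 = b a i j * g j ^ 2 := fun j => by
      rw [mul_pow, hsq]
    simp only [e3, e4, hsq] at h3
    rw [hB]
    exact h3
  have h3 : p ^ 2 + q ^ 2 ≤ B ^ 2 := by
    have h4 := hCS (u x y i)
    have h5 := hCS (v x y i)
    rw [← hp] at h4
    rw [← hq] at h5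
    have e5 : B * ∑ j, b a i j * u x y i j ^ 2 + B * ∑ j, b a i j * v x y i j ^ 2 = B ^ 2 := by
      rw [← mul_add, ← Finset.sum_add_distrib, pow_two]
      congr 1
      rw [hB]
      refine Finset.sum_congr rfl fun j _ => ?_
      rw [← mul_add, uv h.unit, mul_one]
    linarith
  rw [← hk, ← hp] at h1
  rw [← hq] at h2
  rw [← hk] at hK
  have hB0 : 0 ≤ B := by
    rw [hB]
    refine Finset.sum_nonneg fun j _ => ?_
    rcases hb01 i j with h | h <;> rw [h]
    norm_num
  have hBn : B ^ 2 ≤ (1 / 4 + dl) ^ 2 * (n : ℝ) ^ 2 := by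
    rw [← mul_pow]
    have := hd i
    rw [← hB] at this
    exact pow_le_pow_left₀ hB0 this 2
  have hR2 : (c * x i + s * y i) ^ 2 + (x i * s - y i * c) ^ 2 = R1 x y := by
    rw [hR1]
    have e6 : (c * x i + s * y i) ^ 2 + (x i * s - y i * c) ^ 2 =
        (x i ^ 2 + y i ^ 2) * (c ^ 2 + s ^ 2) := by ring
    rw [e6, h.unit i, one_mul]
  by_contra hcon
  have hneg : c * x i + s * y i ≤ 0 := not_lt.1 hcon
  rw [h1, h2] at hR2
  rw [h1] at hneg
  have h7 : (1 + k + p) ^ 2 ≤ p ^ 2 := by nlinarith
  linarith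

/-- all edges are synchronous -/
lemma edge (hDB : S_DB) (h : Eq n a x y) (hR : (1 / 4 + dl) ^ 2 * (n : ℝ) ^ 2 < R1 x y)
    (i j : Fin n) (hij : a i j = 1) : u x y i j = 1 := by
  have ha0 : ∀ i j, 0 ≤ a i j := fun i j => by
    rcases h.gr.zo i j with h | h <;> rw [h]
    norm_num
  have hw0 : ∀ i j, 0 ≤ a i j * (1 - u x y i j) := fun i j =>
    mul_nonneg (ha0 i j) (by linarith [u_le h.unit i j])
  -- symmetrisation
  have hsym : ∀ g : Fin n → ℝ, ∑ i, ∑ j, a i j * v x y i j * (g i - g j) = 0 := by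
    intro g
    have e1 : ∑ i, ∑ j, a i j * v x y i j * g i = 0 := by
      refine Finset.sum_eq_zero fun i _ => ?_
      rw [← Finset.sum_mul, h.l1 i, zero_mul]
    have e2 : ∑ i, ∑ j, a i j * v x y i j * g j = 0 := by
      rw [Finset.sum_comm]
      refine Finset.sum_eq_zero fun j _ => ?_
      have e3 : ∀ i, a i j * v x y i j * g j = -(a j i * v x y j i * g j) := fun i => by
        rw [h.gr.sym i j, v_anti i j]
        ring
      simp only [e3]
      rw [Finset.sum_neg_distrib, ← Finset.sum_mul, h.l1 j, zero_mul, neg_zero]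
    have e4 : ∀ i j, a i j * v x y i j * (g i - g j) = a i j * v x y i j * g i -
        a i j * v x y i j * g j := fun i j => by ring
    simp only [e4, Finset.sum_sub_distrib]
    rw [e1, e2, sub_zero]
  have hdouble : ∀ g : Fin n → ℝ, ∑ i, ∑ j, a i j * (1 - u x y i j) * (g i + g j) =
      2 * ∑ i, (∑ j, a i j * (1 - u x y i j)) * g i := by
    intro g
    have e1 : ∑ i, ∑ j, a i j * (1 - u x y i j) * g i =
        ∑ i, (∑ j, a i j * (1 - u x y i j)) * g i :=
      Finset.sum_congr rfl fun i _ => (Finset.sum_mul _ _ _).symm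
    have e2 : ∑ i, ∑ j, a i j * (1 - u x y i j) * g j =
        ∑ i, (∑ j, a i j * (1 - u x y i j)) * g i := by
      rw [Finset.sum_comm]
      refine Finset.sum_congr rfl fun j _ => ?_
      rw [Finset.sum_mul]
      refine Finset.sum_congr rfl fun i _ => ?_
      rw [h.gr.sym i j, u_sym i j]
    simp only [mul_add, Finset.sum_add_distrib]
    rw [e1, e2]
    ring
  have hx : ∑ i, (∑ j, a i j * (1 - u x y i j)) * x i = 0 := by
    have h1 := hsym y
    have e1 : ∀ i j, a i j * v x y i j * (y i - y j) =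
        -(a i j * (1 - u x y i j) * (x i + x j)) := by
      intro i j
      have h2 := h.unit i
      have h3 := h.unit j
      have e2 : v x y i j * (y i - y j) = -((1 - u x y i j) * (x i + x j)) := by
        have e3 : v x y i j * (y i - y j) + (1 - u x y i j) * (x i + x j) =
            x i * (1 - (x j ^ 2 + y j ^ 2)) + x j * (1 - (x i ^ 2 + y i ^ 2)) := by
          unfold u v
          ring
        rw [h2, h3] at e3
        linarith
      rw [mul_assoc, e2]
      ring
    simp only [e1, Finset.sum_neg_distrib] at h1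
    rw [hdouble x] at h1
    linarith
  have hy : ∑ i, (∑ j, a i j * (1 - u x y i j)) * y i = 0 := by
    have h1 := hsym x
    have e1 : ∀ i j, a i j * v x y i j * (x i - x j) = a i j * (1 - u x y i j) * (y i + y j) := by
      intro i j
      have h2 := h.unit i
      have h3 := h.unit j
      have e2 : v x y i j * (x i - x j) = (1 - u x y i j) * (y i + y j) := by
        have e3 : v x y i j * (x i - x j) - (1 - u x y i j) * (y i + y j) =
            y i * ((x j ^ 2 + y j ^ 2) - 1) + y j * ((x i ^ 2 + y i ^ 2) - 1) := by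
          unfold u v
          ring
        rw [h2, h3] at e3
        linarith
      rw [mul_assoc, e2]
      ring
    simp only [e1] at h1
    rw [hdouble y] at h1
    linarith
  have hsum : ∑ i, (∑ j, a i j * (1 - u x y i j)) * ((∑ j, x j) * x i + (∑ j, y j) * y i) = 0 := by
    have e1 : ∀ i, (∑ j, a i j * (1 - u x y i j)) * ((∑ j, x j) * x i + (∑ j, y j) * y i) =
        (∑ j, x j) * ((∑ j, a i j * (1 - u x y i j)) * x i) +
        (∑ j, y j) * ((∑ j, a i j * (1 - u x y i j)) * y i) := fun i => by ring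
    simp only [e1, Finset.sum_add_distrib, ← Finset.mul_sum]
    rw [hx, hy]
    ring
  have hall := (Finset.sum_eq_zero_iff_of_nonneg fun i _ =>
    mul_nonneg (Finset.sum_nonneg fun j _ => hw0 i j) (P_pos hDB h hR i).le).1 hsum i (mem_univ i)
  have hwi : ∑ j, a i j * (1 - u x y i j) = 0 := by
    rcases mul_eq_zero.1 hall with h1 | h1
    · exact h1
    · exact absurd h1 (P_pos hDB h hR i).ne'
  have hj := (Finset.sum_eq_zero_iff_of_nonneg fun j _ => hw0 i j).1 hwi j (mem_univ j)
  rw [hij, one_mul] at hj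
  linarith

end

theorem t_SY (hDB : S_DB) : S_SY := by
  intro n a x y h hR
  have hedge := edge hDB h hR
  have heq : ∀ i j, u x y i j = 1 → x i = x j ∧ y i = y j := by
    intro i j hu
    have h1 := h.unit i
    have h2 := h.unit j
    unfold u at hu
    have h3 : (x i - x j) ^ 2 + (y i - y j) ^ 2 = 0 := by nlinarith
    have h4 : (x i - x j) ^ 2 = 0 := by nlinarith [sq_nonneg (x i - x j), sq_nonneg (y i - y j)]
    have h5 : (y i - y j) ^ 2 = 0 := by nlinarith [sq_nonneg (x i - x j), sq_nonneg (y i - y j)]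
    exact ⟨by linarith [pow_eq_zero_iff (two_ne_zero) |>.1 h4],
      by linarith [pow_eq_zero_iff (two_ne_zero) |>.1 h5]⟩
  have hself : ∀ i, u x y i i = 1 := fun i => by
    have := h.unit i
    unfold u
    linarith
  intro i j
  by_cases hij : i = j
  · rw [hij]
    exact hself j
  rcases h.gr.zo i j with ha | ha
  · by_contra hcon
    have hno : ∀ l, a i l + a j l ≤ 1 := by
      intro l
      rcases h.gr.zo i l with h1 | h1
      · rcases h.gr.zo j l with h2 | h2 <;> rw [h1, h2] <;> norm_num
      · rcases h.gr.zo j l with h2 | h2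
        · rw [h1, h2]
          norm_num
        · exfalso
          apply hcon
          obtain ⟨e1, e2⟩ := heq i l (hedge i l h1)
          obtain ⟨e3, e4⟩ := heq j l (hedge j l h2)
          have := hself l
          unfold u at this ⊢
          rw [e1, e2, e3, e4]
          exact this
    have hle : ∀ l, a i l + a j l ≤ 1 - (if l = i then 1 else 0) - (if l = j then 1 else 0) := by
      intro l
      by_cases h1 : l = i
      · have h2 : ¬ l = j := fun h => hij (h1 ▸ h)
        rw [if_pos h1, if_neg h2, h1, h.gr.diag, h.gr.sym j i, ha]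
        norm_num
      · by_cases h2 : l = j
        · rw [if_neg h1, if_pos h2, h2, h.gr.diag, ha]
          norm_num
        · rw [if_neg h1, if_neg h2]
          linarith [hno l]
    have hs := Finset.sum_le_sum fun l (_ : l ∈ (univ : Finset (Fin n))) => hle l
    rw [Finset.sum_add_distrib, Finset.sum_sub_distrib, Finset.sum_sub_distrib,
      Finset.sum_ite_eq' univ i (fun _ => (1 : ℝ)), Finset.sum_ite_eq' univ j (fun _ => (1 : ℝ)),
      if_pos (mem_univ i), if_pos (mem_univ j)] at hs
    simp only [Finset.sum_const, Finset.card_univ, Fintype.card_fin, nsmul_eq_mul, mul_one] at hs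
    have d1 := h.gr.deg i
    have d2 := h.gr.deg j
    have hn : (2 : ℝ) ≤ n := by exact_mod_cast h.gr.two
    have hdl : dl = 1 / 10 ^ 8 := rfl
    rw [hdl] at d1 d2
    nlinarith
  · exact hedge i j ha

end Pool.Agent.TH644.KM
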